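import Mathlib

/-!
# The Manturov group `G^2_4` contains a free group of rank two

The six generators `a_{12}, a_{13}, a_{14}, a_{23}, a_{24}, a_{34}` are numbered `0, ..., 5`, that
is `a, b, c, d, e, f` in this order.

Proof: choose pairwise anticommuting traceless matrices `E_1, E_2, E_3` and `E_4 = 0`, and send
`a_{ij}` to the class of `E_i - E_j` in `PGL_2(ℚ)`. The elements `(e d) ^ 2` and
`a (e d) ^ 2 a` go to the classes of `diag (9, 1)` and `!![5, -4; -4, 5]`, which play ping-pong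
on the projective line.
-/

set_option autoImplicit false

open scoped LinearAlgebra.Projectivization

namespace Pool.Agent.Results.MP_18aa7e_al.FreeSubgroup

/-- The pairs of generators of `G^2_4` indexed by disjoint pairs: `af`, `be`, `cd`. -/
def disjointPairs : List (Fin 6 × Fin 6) := [(0, 5), (1, 4), (2, 3)]

/-- The triples `(x, y, z)` for which `x y z = z y x` is a defining relation of `G^2_4`:
three for each of the 3-element subsets `{1,2,3}`, `{1,2,4}`, `{1,3,4}`, `{2,3,4}`. -/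
def triples : List (Fin 6 × Fin 6 × Fin 6) :=
  [(0, 1, 3), (1, 0, 3), (0, 3, 1),
   (0, 2, 4), (2, 0, 4), (0, 4, 2),
   (1, 2, 5), (2, 1, 5), (1, 5, 2),
   (3, 4, 5), (4, 3, 5), (3, 5, 4)]

/-- The defining relators of `G^2_4`: `x ^ 2`, `x y (y x)⁻¹` and `x y z (z y x)⁻¹`. -/
def relators : Set (FreeGroup (Fin 6)) :=
  {r | ∃ x, r = FreeGroup.of x ^ 2} ∪
  {r | ∃ p ∈ disjointPairs, r = FreeGroup.of p.1 * FreeGroup.of p.2 *
    (FreeGroup.of p.2 * FreeGroup.of p.1)⁻¹} ∪
  {r | ∃ t ∈ triples, r = FreeGroup.of t.1 * FreeGroup.of t.2.1 * FreeGroup.of t.2.2 *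
    (FreeGroup.of t.2.2 * FreeGroup.of t.2.1 * FreeGroup.of t.1)⁻¹}

/-- The Manturov group `G^2_4`. -/
abbrev G24 : Type := PresentedGroup relators

/-- The matrices `E_i - E_j`. -/
def M : Fin 6 → Matrix (Fin 2) (Fin 2) ℚ :=
  ![!![1, -1; -1, -1], !![1, -2; 2, -1], !![1, 0; 0, -1], !![0, -1; 3, 0], !![0, 1; 1, 0],
    !![0, 2; -2, 0]]

lemma det_M (i : Fin 6) : (M i).det ≠ 0 := by
  fin_cases i <;> simp [M, Matrix.det_fin_two] <;> norm_num

/-- The matrices as elements of `GL_2(ℚ)`. -/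
noncomputable def g (i : Fin 6) : GL (Fin 2) ℚ := Matrix.GeneralLinearGroup.mkOfDetNeZero (M i) (det_M i)

@[simp] lemma coe_g (i : Fin 6) : ((g i : GL (Fin 2) ℚ) : Matrix (Fin 2) (Fin 2) ℚ) = M i := rfl

/-- The projective line. -/
abbrev P := ℙ ℚ (Fin 2 → ℚ)

/-- The action on the projective line as a homomorphism. -/
noncomputable def T : GL (Fin 2) ℚ →* Equiv.Perm P := MulAction.toPermHom _ _

lemma T_eq {x y : GL (Fin 2) ℚ} (c : ℚ)
    (h : (x : Matrix (Fin 2) (Fin 2) ℚ) = c • (y : Matrix (Fin 2) (Fin 2) ℚ)) : T x = T y := by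
  ext p
  induction p using Projectivization.ind with
  | h v hv =>
    simp only [T, MulAction.toPermHom_apply, MulAction.toPerm_apply, Projectivization.smul_mk]
    rw [Projectivization.mk_eq_mk_iff']
    refine ⟨c, ?_⟩
    simp only [Units.smul_def, h]
    rw [smul_assoc]

lemma T_pow_two (i : Fin 6) : T (g i) ^ 2 = 1 := by
  rw [← map_pow, ← map_one T]
  fin_cases i
  · refine T_eq 2 ?_
    ext a b; fin_cases a <;> fin_cases b <;> simp [M, pow_two, Matrix.mul_apply] <;> norm_num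
  · refine T_eq (-3) ?_
    ext a b; fin_cases a <;> fin_cases b <;> simp [M, pow_two, Matrix.mul_apply] <;> norm_num
  · refine T_eq 1 ?_
    ext a b; fin_cases a <;> fin_cases b <;> simp [M, pow_two, Matrix.mul_apply]
  · refine T_eq (-3) ?_
    ext a b; fin_cases a <;> fin_cases b <;> simp [M, pow_two, Matrix.mul_apply]
  · refine T_eq 1 ?_
    ext a b; fin_cases a <;> fin_cases b <;> simp [M, pow_two, Matrix.mul_apply]
  · refine T_eq (-4) ?_
    ext a b; fin_cases a <;> fin_cases b <;> simp [M, pow_two, Matrix.mul_apply] <;> norm_num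

lemma T_comm (p : Fin 6 × Fin 6) (hp : p ∈ disjointPairs) :
    T (g p.1) * T (g p.2) = T (g p.2) * T (g p.1) := by
  rw [← map_mul, ← map_mul]
  refine T_eq (-1) ?_
  simp only [disjointPairs, List.mem_cons, List.not_mem_nil, or_false] at hp
  rcases hp with rfl | rfl | rfl <;>
  · ext a b; fin_cases a <;> fin_cases b <;> simp [M, Matrix.mul_apply]

lemma T_triple (t : Fin 6 × Fin 6 × Fin 6) (ht : t ∈ triples) :
    T (g t.1) * T (g t.2.1) * T (g t.2.2) = T (g t.2.2) * T (g t.2.1) * T (g t.1) := by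
  rw [← map_mul, ← map_mul, ← map_mul, ← map_mul]
  refine T_eq 1 ?_
  simp only [triples, List.mem_cons, List.not_mem_nil, or_false] at ht
  rcases ht with rfl | rfl | rfl | rfl | rfl | rfl | rfl | rfl | rfl | rfl | rfl | rfl <;>
  · ext a b; fin_cases a <;> fin_cases b <;> simp [M, Matrix.mul_apply] <;> norm_num

/-- The homomorphism from `G^2_4` to the permutations of the projective line. -/
noncomputable def rho : G24 →* Equiv.Perm P :=
  PresentedGroup.toGroup (f := fun i => T (g i)) (by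
    rintro r ((⟨x, rfl⟩ | ⟨p, hp, rfl⟩) | ⟨t, ht, rfl⟩)
    · simpa using T_pow_two x
    · simp only [map_mul, map_inv, FreeGroup.lift_apply_of]
      rw [T_comm p hp, mul_inv_cancel]
    · simp only [map_mul, map_inv, FreeGroup.lift_apply_of]
      rw [T_triple t ht, mul_inv_cancel])

lemma rho_of (i : Fin 6) : rho (PresentedGroup.of i) = T (g i) := by
  simp [rho]

/-- The two elements `(e d) ^ 2` and `a (e d) ^ 2 a` of `G^2_4`. -/
def w : Fin 2 → G24 :=
  ![(PresentedGroup.of 4 * PresentedGroup.of 3) ^ 2,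
    PresentedGroup.of 0 * (PresentedGroup.of 4 * PresentedGroup.of 3) ^ 2 * PresentedGroup.of 0]

lemma rho_w0 (v : Fin 2 → ℚ) (hv : v ≠ 0) (u : Fin 2 → ℚ) (hu : u ≠ 0) (c : ℚ)
    (h0 : c * u 0 = 9 * v 0) (h1 : c * u 1 = v 1) :
    rho (w 0) (Projectivization.mk ℚ v hv) = Projectivization.mk ℚ u hu := by
  simp only [w, Matrix.cons_val_zero, map_pow, map_mul, rho_of]
  rw [← map_mul, ← map_pow]
  simp only [T, MulAction.toPermHom_apply, MulAction.toPerm_apply, Projectivization.smul_mk]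
  rw [Projectivization.mk_eq_mk_iff']
  refine ⟨c, ?_⟩
  ext j
  fin_cases j
  · simp [Units.smul_def, pow_two, M, h0, Matrix.vecHead]
    ring_nf
    simp
  · simp [Units.smul_def, pow_two, M, h1, Matrix.vecHead, Matrix.vecTail]

lemma rho_w1 (v : Fin 2 → ℚ) (hv : v ≠ 0) (u : Fin 2 → ℚ) (hu : u ≠ 0) (c : ℚ)
    (h0 : c * u 0 = 5 * v 0 - 4 * v 1) (h1 : c * u 1 = 5 * v 1 - 4 * v 0) :
    rho (w 1) (Projectivization.mk ℚ v hv) = Projectivization.mk ℚ u hu := by
  simp only [w, Matrix.cons_val_one, Matrix.cons_val_fin_one, map_pow, map_mul, rho_of]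
  rw [← map_mul, ← map_pow, ← map_mul, ← map_mul]
  simp only [T, MulAction.toPermHom_apply, MulAction.toPerm_apply, Projectivization.smul_mk]
  rw [Projectivization.mk_eq_mk_iff']
  refine ⟨2 * c, ?_⟩
  ext j
  fin_cases j
  · simp [Units.smul_def, pow_two, M, mul_assoc, h0, Matrix.vecHead, Matrix.vecTail]
    ring
  · simp [Units.smul_def, pow_two, M, mul_assoc, h1, Matrix.vecHead, Matrix.vecTail]
    ring

/-- The ping-pong sets. -/
def X (i : Fin 2) : Set P :=
  {p | ∃ (v : Fin 2 → ℚ) (hv : v ≠ 0), p = Projectivization.mk ℚ v hv ∧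
    ![3 * |v 1| ≤ |v 0|, 3 * |v 0 + v 1| ≤ |v 0 - v 1|] i}

/-- The ping-pong sets. -/
def Y (i : Fin 2) : Set P :=
  {p | ∃ (v : Fin 2 → ℚ) (hv : v ≠ 0), p = Projectivization.mk ℚ v hv ∧
    ![3 * |v 0| ≤ |v 1|, 3 * |v 0 - v 1| ≤ |v 0 + v 1|] i}

lemma mem_X (i : Fin 2) (v : Fin 2 → ℚ) (hv : v ≠ 0) : Projectivization.mk ℚ v hv ∈ X i ↔
    ![3 * |v 1| ≤ |v 0|, 3 * |v 0 + v 1| ≤ |v 0 - v 1|] i := by
  constructor
  · rintro ⟨u, hu, h, h'⟩
    rw [Projectivization.mk_eq_mk_iff'] at h
    obtain ⟨c, rfl⟩ := h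
    fin_cases i
    · simp only [Fin.zero_eta, Matrix.cons_val_zero, Pi.smul_apply, smul_eq_mul, abs_mul] at h' ⊢
      nlinarith [abs_nonneg c]
    · simp only [Fin.mk_one, Matrix.cons_val_one, Matrix.cons_val_fin_one, Pi.smul_apply,
        smul_eq_mul] at h' ⊢
      rw [← mul_add, ← mul_sub, abs_mul, abs_mul]
      nlinarith [abs_nonneg c]
  · intro h
    exact ⟨v, hv, rfl, h⟩

lemma mem_Y (i : Fin 2) (v : Fin 2 → ℚ) (hv : v ≠ 0) : Projectivization.mk ℚ v hv ∈ Y i ↔
    ![3 * |v 0| ≤ |v 1|, 3 * |v 0 - v 1| ≤ |v 0 + v 1|] i := by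
  constructor
  · rintro ⟨u, hu, h, h'⟩
    rw [Projectivization.mk_eq_mk_iff'] at h
    obtain ⟨c, rfl⟩ := h
    fin_cases i
    · simp only [Fin.zero_eta, Matrix.cons_val_zero, Pi.smul_apply, smul_eq_mul, abs_mul] at h' ⊢
      nlinarith [abs_nonneg c]
    · simp only [Fin.mk_one, Matrix.cons_val_one, Matrix.cons_val_fin_one, Pi.smul_apply,
        smul_eq_mul] at h' ⊢
      rw [← mul_add, ← mul_sub, abs_mul, abs_mul]
      nlinarith [abs_nonneg c]
  · intro h
    exact ⟨v, hv, rfl, h⟩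

lemma eq_zero_of {v : Fin 2 → ℚ} (h0 : v 0 = 0) (h1 : v 1 = 0) : v = 0 := by
  ext j
  fin_cases j
  · exact h0
  · exact h1

lemma disj_XX {v : Fin 2 → ℚ} (h : 3 * |v 1| ≤ |v 0|) (h' : 3 * |v 0 + v 1| ≤ |v 0 - v 1|) :
    v = 0 := by
  have a1 := abs_sub_abs_le_abs_sub (v 0) (-v 1)
  have a2 := abs_sub (v 0) (v 1)
  rw [abs_neg, sub_neg_eq_add] at a1
  have b1 := abs_nonneg (v 1)
  have b0 := abs_nonneg (v 0)
  have c0 : |v 0| = 0 := by linarith
  have c1 : |v 1| = 0 := by linarith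
  exact eq_zero_of (abs_eq_zero.1 c0) (abs_eq_zero.1 c1)

lemma disj_YY {v : Fin 2 → ℚ} (h : 3 * |v 0| ≤ |v 1|) (h' : 3 * |v 0 - v 1| ≤ |v 0 + v 1|) :
    v = 0 := by
  have a1 := abs_sub_abs_le_abs_sub (v 1) (v 0)
  rw [abs_sub_comm (v 1) (v 0)] at a1
  have a2 := abs_add_le (v 0) (v 1)
  have b1 := abs_nonneg (v 1)
  have b0 := abs_nonneg (v 0)
  have c0 : |v 0| = 0 := by linarith
  have c1 : |v 1| = 0 := by linarith
  exact eq_zero_of (abs_eq_zero.1 c0) (abs_eq_zero.1 c1)

lemma disj_XY0 {v : Fin 2 → ℚ} (h : 3 * |v 1| ≤ |v 0|) (h' : 3 * |v 0| ≤ |v 1|) :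
    v = 0 := by
  have b1 := abs_nonneg (v 1)
  have b0 := abs_nonneg (v 0)
  have c0 : |v 0| = 0 := by linarith
  have c1 : |v 1| = 0 := by linarith
  exact eq_zero_of (abs_eq_zero.1 c0) (abs_eq_zero.1 c1)

lemma disj_X0Y1 {v : Fin 2 → ℚ} (h : 3 * |v 1| ≤ |v 0|) (h' : 3 * |v 0 - v 1| ≤ |v 0 + v 1|) :
    v = 0 := by
  have a1 := abs_sub_abs_le_abs_sub (v 0) (v 1)
  have a2 := abs_add_le (v 0) (v 1)
  have b1 := abs_nonneg (v 1)
  have b0 := abs_nonneg (v 0)
  have c0 : |v 0| = 0 := by linarith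
  have c1 : |v 1| = 0 := by linarith
  exact eq_zero_of (abs_eq_zero.1 c0) (abs_eq_zero.1 c1)

lemma disj_Y0X1 {v : Fin 2 → ℚ} (h : 3 * |v 0| ≤ |v 1|) (h' : 3 * |v 0 + v 1| ≤ |v 0 - v 1|) :
    v = 0 := by
  have a1 := abs_sub_abs_le_abs_sub (v 1) (-v 0)
  have a2 := abs_sub (v 0) (v 1)
  rw [abs_neg, sub_neg_eq_add, add_comm] at a1
  have b1 := abs_nonneg (v 1)
  have b0 := abs_nonneg (v 0)
  have c0 : |v 0| = 0 := by linarith
  have c1 : |v 1| = 0 := by linarith
  exact eq_zero_of (abs_eq_zero.1 c0) (abs_eq_zero.1 c1)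

lemma disj_X1Y1 {v : Fin 2 → ℚ} (h : 3 * |v 0 + v 1| ≤ |v 0 - v 1|)
    (h' : 3 * |v 0 - v 1| ≤ |v 0 + v 1|) : v = 0 := by
  have b1 := abs_nonneg (v 0 - v 1)
  have b0 := abs_nonneg (v 0 + v 1)
  have c0 := abs_eq_zero.1 (show |v 0 - v 1| = 0 by linarith)
  have c1 := abs_eq_zero.1 (show |v 0 + v 1| = 0 by linarith)
  exact eq_zero_of (by linarith) (by linarith)

/-- The images of the two elements play ping-pong. -/
lemma injective_lift : Function.Injective (FreeGroup.lift fun i => rho (w i)) := by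
  refine FreeGroup.injective_lift_of_ping_pong (α := P) (fun i => rho (w i)) X Y ?_ ?_ ?_ ?_ ?_ ?_
  · intro i
    fin_cases i
    · refine ⟨Projectivization.mk ℚ ![1, 0] (by simp), (mem_X _ _ _).2 ?_⟩
      simp
    · refine ⟨Projectivization.mk ℚ ![1, -1] (by simp), (mem_X _ _ _).2 ?_⟩
      simp
  · intro i j hij
    change Disjoint (X i) (X j)
    rw [Set.disjoint_left]
    intro p hp hq
    induction p using Projectivization.ind with
    | h v hv =>
      rw [mem_X] at hp hq
      fin_cases i <;> fin_cases j <;> simp at hij hp hq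
      · exact hv (disj_XX hp hq)
      · exact hv (disj_XX hq hp)
  · intro i j hij
    change Disjoint (Y i) (Y j)
    rw [Set.disjoint_left]
    intro p hp hq
    induction p using Projectivization.ind with
    | h v hv =>
      rw [mem_Y] at hp hq
      fin_cases i <;> fin_cases j <;> simp at hij hp hq
      · exact hv (disj_YY hp hq)
      · exact hv (disj_YY hq hp)
  · intro i j
    rw [Set.disjoint_left]
    intro p hp hq
    induction p using Projectivization.ind with
    | h v hv =>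
      rw [mem_X] at hp
      rw [mem_Y] at hq
      fin_cases i <;> fin_cases j <;> simp at hp hq
      · exact hv (disj_XY0 hp hq)
      · exact hv (disj_X0Y1 hp hq)
      · exact hv (disj_Y0X1 hq hp)
      · exact hv (disj_X1Y1 hp hq)
  · rintro i _ ⟨p, hp, rfl⟩
    induction p using Projectivization.ind with
    | h v hv =>
      rw [Set.mem_compl_iff, mem_Y] at hp
      change rho (w i) (Projectivization.mk ℚ v hv) ∈ X i
      fin_cases i
      · simp only [Fin.zero_eta, Matrix.cons_val_zero, not_le] at hp ⊢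
        rw [rho_w0 v hv ![9 * v 0, v 1] ?_ 1 (by simp) (by simp), mem_X]
        · simp only [Matrix.cons_val_zero, Matrix.cons_val_one, Matrix.cons_val_fin_one, abs_mul]
          rw [abs_of_pos (by norm_num : (0 : ℚ) < 9)]
          linarith [abs_nonneg (v 1)]
        · intro h
          have h0 := congrFun h 0
          have h1 := congrFun h 1
          simp at h0 h1
          exact hv (eq_zero_of h0 h1)
      · simp only [Fin.mk_one, Matrix.cons_val_one, Matrix.cons_val_fin_one, not_le] at hp ⊢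
        rw [rho_w1 v hv ![5 * v 0 - 4 * v 1, 5 * v 1 - 4 * v 0] ?_ 1 (by simp) (by simp), mem_X]
        · simp only [Matrix.cons_val_zero, Matrix.cons_val_one, Matrix.cons_val_fin_one]
          rw [show 5 * v 0 - 4 * v 1 + (5 * v 1 - 4 * v 0) = v 0 + v 1 by ring,
            show 5 * v 0 - 4 * v 1 - (5 * v 1 - 4 * v 0) = 9 * (v 0 - v 1) by ring, abs_mul,
            abs_of_pos (by norm_num : (0 : ℚ) < 9)]
          linarith [abs_nonneg (v 0 - v 1)]
        · intro h
          have h0 := congrFun h 0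
          have h1 := congrFun h 1
          simp at h0 h1
          exact hv (eq_zero_of (by linarith) (by linarith))
  · rintro i _ ⟨p, hp, rfl⟩
    induction p using Projectivization.ind with
    | h v hv =>
      rw [Set.mem_compl_iff, mem_X] at hp
      change (rho (w i))⁻¹ (Projectivization.mk ℚ v hv) ∈ Y i
      fin_cases i
      · simp only [Fin.zero_eta, Matrix.cons_val_zero, not_le] at hp ⊢
        have hu : ![v 0, 9 * v 1] ≠ 0 := by
          intro h
          have h0 := congrFun h 0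
          have h1 := congrFun h 1
          simp at h0 h1
          exact hv (eq_zero_of h0 h1)
        rw [← rho_w0 ![v 0, 9 * v 1] hu v hv 9 (by simp) (by simp), ← Equiv.Perm.mul_apply, inv_mul_cancel,
          Equiv.Perm.one_apply,
          mem_Y]
        simp only [Matrix.cons_val_zero, Matrix.cons_val_one, Matrix.cons_val_fin_one, abs_mul]
        rw [abs_of_pos (by norm_num : (0 : ℚ) < 9)]
        linarith [abs_nonneg (v 1)]
      · simp only [Fin.mk_one, Matrix.cons_val_one, Matrix.cons_val_fin_one, not_le] at hp ⊢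
        have hu : ![5 * v 0 + 4 * v 1, 5 * v 1 + 4 * v 0] ≠ 0 := by
          intro h
          have h0 := congrFun h 0
          have h1 := congrFun h 1
          simp at h0 h1
          exact hv (eq_zero_of (by linarith) (by linarith))
        rw [← rho_w1 ![5 * v 0 + 4 * v 1, 5 * v 1 + 4 * v 0] hu v hv 9 (by simp; ring)
          (by simp; ring), ← Equiv.Perm.mul_apply, inv_mul_cancel,
          Equiv.Perm.one_apply, mem_Y]
        simp only [Matrix.cons_val_zero, Matrix.cons_val_one, Matrix.cons_val_fin_one]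
        rw [show 5 * v 0 + 4 * v 1 - (5 * v 1 + 4 * v 0) = v 0 - v 1 by ring,
          show 5 * v 0 + 4 * v 1 + (5 * v 1 + 4 * v 0) = 9 * (v 0 + v 1) by ring, abs_mul,
          abs_of_pos (by norm_num : (0 : ℚ) < 9)]
        linarith [abs_nonneg (v 0 + v 1)]

/-- The group `G^2_4` contains a subgroup isomorphic to the free group of rank two. -/
theorem result : ∃ H : Subgroup G24, Nonempty (FreeGroup (Fin 2) ≃* H) := by
  have h : Function.Injective (FreeGroup.lift w) := by
    have h1 : FreeGroup.lift (fun i => rho (w i)) = rho.comp (FreeGroup.lift w) := by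
      ext i
      simp
    have h2 := injective_lift
    rw [h1, MonoidHom.coe_comp] at h2
    exact h2.of_comp
  exact ⟨(FreeGroup.lift w).range, ⟨MonoidHom.ofInjective h⟩⟩

end Pool.Agent.Results.MP_18aa7e_al.FreeSubgroup
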